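import Pool.Agent.helper3.FS.SpecE

/-!
# FSE.SA2: the Schur bound (helper62)
-/

set_option autoImplicit false

open Complex Metric Set Filter Topology MeasureTheory
open HY (UD T S hd UN RM)
open RT

noncomputable section

namespace FSE

theorem SA2_mono {W : Set ℂ} {κ A B : ℝ} {I : Finset ℕ} {o : ℕ → ℂ} (hA : BDD W κ A I o) (hAB : A ≤ B) (hcr : ∀ y : ℂ, 0 ≤ cr W y) : BDD W κ B I o := by
  intro y hy X hX
  exact (hA y hy X hX).trans (mul_le_mul_of_nonneg_right hAB (Real.rpow_nonneg (hcr y) κ))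

theorem SA2 (hSA0 : SA0_stmt) (hSA1 : SA1_stmt) : SA2_stmt := by
  intro s ε hs hs1 hε
  obtain ⟨κ₁, hκ₁, hκ₁1, h0⟩ := hSA0 s hs hs1
  obtain ⟨κ₂, hκ₂, hκ₂1, h1⟩ := hSA1 s ε hs hs1 hε
  refine ⟨min κ₁ κ₂, lt_min hκ₁ hκ₂, (min_le_left _ _).trans hκ₁1, ?_⟩
  intro κ hκ hκm
  obtain ⟨C', hC', h2⟩ := h1 κ hκ (hκm.trans (min_le_right _ _))
  have hκ1 : κ ≤ 1 := hκm.trans ((min_le_left _ _).trans hκ₁1)
  refine ⟨8 * C' / κ, by positivity, ?_⟩
  intro W hW I o hS
  obtain ⟨A, hA, hB⟩ := h0 κ hκ (hκm.trans (min_le_left _ _)) W hW I o hS.1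
  have hcr : ∀ y : ℂ, 0 ≤ cr W y := fun y => norm_nonneg _
  have hind : ∀ m : ℕ, BDD W κ ((1 - κ / 8) ^ m * A + 8 * C' / κ) I o := by
    intro m
    induction m with
    | zero =>
      refine SA2_mono hB ?_ hcr
      have : 0 ≤ 8 * C' / κ := by positivity
      simp only [pow_zero, one_mul]
      linarith
    | succ m ih =>
      have hnn : 0 ≤ (1 - κ / 8) ^ m * A + 8 * C' / κ := by
        have h3 : 0 ≤ 1 - κ / 8 := by linarith
        positivity
      have h4 := h2 W hW I o hS _ hnn ih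
      refine SA2_mono h4 (le_of_eq ?_) hcr
      field_simp
      ring
  intro y hy X hX
  have hlim : Tendsto (fun m : ℕ => ((1 - κ / 8) ^ m * A + 8 * C' / κ) * cr W y ^ κ) atTop (𝓝 ((0 * A + 8 * C' / κ) * cr W y ^ κ)) := by
    refine Tendsto.mul_const _ (Tendsto.add_const _ (Tendsto.mul_const _ ?_))
    exact tendsto_pow_atTop_nhds_zero_of_lt_one (by linarith) (by linarith)
  have h5 := ge_of_tendsto' hlim (fun m => hind m y hy X hX)
  simpa using h5

end FSE
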