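import Pool.Agent.helper3.FS.SpecE

/-!
# FSE.SHR: Schur test (helper62)
-/

set_option autoImplicit false

noncomputable section

namespace FSE

/-- one pair. -/
theorem SHR_pair (a b p q h : ℝ) (hp : 0 < p) (hq : 0 < q) (hh : 0 ≤ h) : a * b * h ≤ (a ^ 2 / p * (h * q) + b ^ 2 / q * (h * p)) / 2 := by
  have h1 : (a ^ 2 / p * (h * q) + b ^ 2 / q * (h * p)) / 2 - a * b * h = h / (2 * p * q) * (a * q - b * p) ^ 2 := by
    field_simp
    ring
  have h2 : 0 ≤ h / (2 * p * q) * (a * q - b * p) ^ 2 := by positivity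
  linarith

theorem SHR : SHR_stmt := by
  intro I H w p p' Λ hH hp hr hc
  have h1 : ∑ r ∈ I, ∑ t ∈ I, w r * w t * H r t ≤ ∑ r ∈ I, ∑ t ∈ I, (w r ^ 2 / p r * (H r t * p' t) + w t ^ 2 / p' t * (H r t * p r)) / 2 := by
    refine Finset.sum_le_sum fun r hr' => Finset.sum_le_sum fun t ht => ?_
    exact SHR_pair _ _ _ _ _ (hp r hr').1 (hp t ht).2 (hH r hr' t ht)
  have h2 : ∑ r ∈ I, ∑ t ∈ I, w r ^ 2 / p r * (H r t * p' t) ≤ Λ * ∑ r ∈ I, w r ^ 2 := by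
    rw [Finset.mul_sum]
    refine Finset.sum_le_sum fun r hr' => ?_
    rw [← Finset.mul_sum]
    have hpr := (hp r hr').1
    calc w r ^ 2 / p r * ∑ t ∈ I, H r t * p' t ≤ w r ^ 2 / p r * (Λ * p r) := mul_le_mul_of_nonneg_left (hr r hr') (by positivity)
      _ = Λ * w r ^ 2 := by field_simp
  have h3 : ∑ r ∈ I, ∑ t ∈ I, w t ^ 2 / p' t * (H r t * p r) ≤ Λ * ∑ r ∈ I, w r ^ 2 := by
    rw [Finset.sum_comm, Finset.mul_sum]
    refine Finset.sum_le_sum fun t ht => ?_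
    rw [← Finset.mul_sum]
    have hpt := (hp t ht).2
    calc w t ^ 2 / p' t * ∑ r ∈ I, H r t * p r ≤ w t ^ 2 / p' t * (Λ * p' t) := mul_le_mul_of_nonneg_left (hc t ht) (by positivity)
      _ = Λ * w t ^ 2 := by field_simp
  have h4 : ∑ r ∈ I, ∑ t ∈ I, (w r ^ 2 / p r * (H r t * p' t) + w t ^ 2 / p' t * (H r t * p r)) / 2 =
      (∑ r ∈ I, ∑ t ∈ I, w r ^ 2 / p r * (H r t * p' t) + ∑ r ∈ I, ∑ t ∈ I, w t ^ 2 / p' t * (H r t * p r)) / 2 := by
    rw [← Finset.sum_add_distrib, Finset.sum_div]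
    refine Finset.sum_congr rfl fun r _ => ?_
    rw [← Finset.sum_add_distrib, Finset.sum_div]
  rw [h4] at h1
  linarith

end FSE
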